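import Pool.Agent.H656R2.SplitGame.Defs

universe u

namespace Pool.Agent.H656R2.SplitGame

variable {E : Type u}

/-- last move of a history (junk value on the empty history) -/
def lastMove (h : List (Move E)) : Move E := h.getLast?.getD ⟨∅, ∅, ∅⟩

/-- one of the two pieces -/
def piece (a : Move E) (b : Bool) : Set E := if b then a.left else a.right

/-- split `X` according to the `n`-th bit of `g` -/
def bitMove (g : E → ℕ → Bool) (X : Set E) (n : ℕ) : Move E :=
  ⟨X, X ∩ {y | g y n = true}, X ∩ {y | g y n = false}⟩

@[simp] lemma lastMove_append (h : List (Move E)) (m : Move E) : lastMove (h ++ [m]) = m := by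
  simp [lastMove]

@[simp] lemma lastMove_singleton (m : Move E) : lastMove [m] = m := by
  simp [lastMove]

lemma bitMove_splits (g : E → ℕ → Bool) (X : Set E) (n : ℕ) :
    (bitMove g X n).left ∪ (bitMove g X n).right = (bitMove g X n).cur ∧
      Disjoint (bitMove g X n).left (bitMove g X n).right := by
  constructor
  · ext y
    simp only [bitMove, Set.mem_union, Set.mem_inter_iff, Set.mem_ofPred_eq]
    cases g y n <;> simp
  · rw [Set.disjoint_left]
    intro y h1 h2
    simp only [bitMove, Set.mem_inter_iff, Set.mem_ofPred_eq] at h1 h2
    rw [h1.2] at h2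
    simp at h2

lemma legal_of_ne_nil {h : List (Move E)} (hne : h ≠ []) {m : Move E}
    (hs : m.left ∪ m.right = m.cur ∧ Disjoint m.left m.right) (b : Bool)
    (hc : m.cur = piece (lastMove h) b) : Legal h m := by
  refine ⟨hs, fun h0 => absurd h0 hne, ?_⟩
  intro a ha
  have : lastMove h = a := by
    simp only [Option.mem_def] at ha
    simp [lastMove, ha]
  rw [this] at hc
  cases b
  · right; simpa [piece] using hc
  · left; simpa [piece] using hc

lemma Legal.cur_eq {h : List (Move E)} {m : Move E} (hm : Legal h m) (hne : h ≠ []) :
    m.cur = (lastMove h).left ∨ m.cur = (lastMove h).right := by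
  obtain ⟨a, ha⟩ : ∃ a, h.getLast? = some a := by
    rw [← Option.isSome_iff_exists]
    simpa using hne
  have := hm.2.2 a (by simp [ha])
  simpa [lastMove, ha] using this

/-- the histories generated by a rule `F` giving the next move -/
def gen (F : List (Move E) → Move E) : ℕ → List (Move E)
  | 0 => []
  | n + 1 => gen F n ++ [F (gen F n)]

/-- the play generated by a rule -/
def play (F : List (Move E) → Move E) (n : ℕ) : Move E := F (gen F n)

lemma length_gen (F : List (Move E) → Move E) (n : ℕ) : (gen F n).length = n := by
  induction n with
  | zero => rfl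
  | succ n ih => simp [gen, ih]

lemma hist_play (F : List (Move E) → Move E) (n : ℕ) : hist (play F) n = gen F n := by
  induction n with
  | zero => rfl
  | succ n ih =>
    rw [hist, List.range_succ, List.map_append, List.map_singleton]
    change hist (play F) n ++ [play F n] = _
    rw [ih]
    rfl

lemma isHistory_hist {p : ℕ → Move E} {n : ℕ} (h : ∀ k < n, Legal (hist p k) (p k)) :
    IsHistory (hist p n) := by
  intro k hk
  have hk' : k < n := by simpa [hist] using hk
  have h1 : (hist p n).take k = hist p k := by
    simp only [hist, ← List.map_take]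
    congr 1
    rw [List.take_range]
    congr 1
    omega
  have h2 : (hist p n)[k] = p k := by simp [hist]
  rw [h1, h2]
  exact h k hk'

/-- combination of a rule for A and a rule for B -/
noncomputable def comb (σ τ : List (Move E) → Move E) (h : List (Move E)) : Move E :=
  if Even h.length then σ h else τ h

/-- If both rules always give legal moves at legal histories then the play generated is legal. -/
lemma isPlay_comb {σ τ : List (Move E) → Move E} (hσ : IsStrategyA σ) (hτ : IsStrategyB τ) :
    IsPlay (play (comb σ τ)) := by
  intro n
  induction n using Nat.strong_induction_on with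
  | _ n ih =>
    have hh : IsHistory (hist (play (comb σ τ)) n) := isHistory_hist ih
    rw [hist_play] at hh ⊢
    have hl := length_gen (comb σ τ) n
    unfold play
    by_cases hev : Even n
    · have : comb σ τ (gen (comb σ τ) n) = σ (gen (comb σ τ) n) := by
        simp [comb, hl, hev]
      rw [this]
      exact hσ _ hh (by rw [hl]; exact hev)
    · have : comb σ τ (gen (comb σ τ) n) = τ (gen (comb σ τ) n) := by
        simp [comb, hl, hev]
      rw [this]
      exact hτ _ hh (by rw [hl]; exact Nat.not_even_iff_odd.mp hev)

lemma play_comb_even {σ τ : List (Move E) → Move E} {n : ℕ} (hn : Even n) :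
    play (comb σ τ) n = σ (hist (play (comb σ τ)) n) := by
  rw [hist_play]
  simp [play, comb, length_gen, hn]

lemma play_comb_odd {σ τ : List (Move E) → Move E} {n : ℕ} (hn : Odd n) :
    play (comb σ τ) n = τ (hist (play (comb σ τ)) n) := by
  rw [hist_play]
  have : ¬ Even n := Nat.not_even_iff_odd.mpr hn
  simp [play, comb, length_gen, this]

end Pool.Agent.H656R2.SplitGame
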