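import Mathlib

universe u

namespace Pool.Agent.H656R2.SplitGame

/-- A *splitting system* on `E`: a nonempty preorder `Q` of conditions and an order preserving
assignment `q ↦ S q ⊆ E` such that every condition can be strengthened so as to decide any given
subset `X` of `E`, every condition has two extensions whose sets are disjoint, and the
sets along every descending `ω`-sequence of conditions have a common point. -/
def HasSplittingSystem (E : Type u) : Prop :=
  ∃ (Q : Type u) (_ : Preorder Q) (_ : Nonempty Q) (S : Q → Set E),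
    (∀ q q' : Q, q' ≤ q → S q' ⊆ S q) ∧
    (∀ (q : Q) (X : Set E), ∃ q' ≤ q, S q' ⊆ X ∨ Disjoint (S q') X) ∧
    (∀ q : Q, ∃ q₁ ≤ q, ∃ q₂ ≤ q, Disjoint (S q₁) (S q₂)) ∧
    (∀ s : ℕ → Q, (∀ n, s (n + 1) ≤ s n) → (⋂ n, S (s n)).Nonempty)

end Pool.Agent.H656R2.SplitGame
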