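import Pool.Agent.H656R2.SplitGame.Basic
import Pool.Agent.H656R2.SplitGame.Sys

universe u

namespace Pool.Agent.H656R2.SplitGame

variable {E : Type u}

section backward

variable {Q : Type u}

open Classical in
/-- B's answer in terms of the condition `q`: `d q X` decides `X`, `e₁ q, e₂ q` split `q`. -/
noncomputable def answer (S : Q → Set E) (d : Q → Set E → Q) (e₁ : Q → Q)
    (q : Q) (a : Move E) : Move E :=
  let q₁ := d q a.left
  let Y := piece a (decide (S q₁ ⊆ a.left))
  ⟨Y, Y ∩ S (e₁ q₁), Y \ S (e₁ q₁)⟩

open Classical in
/-- The new condition after A picks the piece `m.cur`. -/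
noncomputable def nextCond (S : Q → Set E) (d : Q → Set E → Q) (e₁ e₂ : Q → Q)
    (q : Q) (a m : Move E) : Q :=
  if m.cur = (answer S d e₁ q a).left then e₁ (d q a.left) else e₂ (d q a.left)

/-- The condition attached to a history. -/
noncomputable def cond (S : Q → Set E) (d : Q → Set E → Q) (e₁ e₂ : Q → Q) (q₀ : Q)
    (h : List (Move E)) : Q :=
  if hl : h.length < 2 then q₀
  else nextCond S d e₁ e₂ (cond S d e₁ e₂ q₀ (h.take (h.length - 2)))
    (lastMove (h.take (h.length - 2))) (lastMove h)
termination_by h.length
decreasing_by
  simp only [List.length_take]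
  omega

theorem HasSplittingSystem.bWins (hE : HasSplittingSystem E) : BHasWinningStrategy E := by
  obtain ⟨Q, _, ⟨q₀⟩, S, hmono, hdec, hsplit, hcl⟩ := hE
  choose d hd1 hd2 using hdec
  choose e₁ he1 e₂ he2 hdisj using hsplit
  have hSne : ∀ q, (S q).Nonempty := by
    intro q
    obtain ⟨x, hx⟩ := hcl (fun _ => q) (fun _ => le_refl q)
    exact ⟨x, Set.mem_iInter.mp hx 0⟩
  let τ : List (Move E) → Move E := fun h =>
    answer S d e₁ (cond S d e₁ e₂ q₀ h) (lastMove h)
  classical
  refine ⟨τ, ?_, ?_⟩
  · intro h _ hodd
    have hne : h ≠ [] := by
      rintro rfl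
      simp at hodd
    refine legal_of_ne_nil hne ⟨?_, ?_⟩ (decide (S (d (cond S d e₁ e₂ q₀ h) (lastMove h).left)
      ⊆ (lastMove h).left)) ?_
    · simp [τ, answer]
    · simp only [τ, answer]
      rw [Set.disjoint_left]
      intro x h1 h2
      exact h2.2 h1.2
    · simp [τ, answer]
  · intro p hp hfol hA
    let q : ℕ → Q := fun n => cond S d e₁ e₂ q₀ (hist p (2 * n + 1))
    have hlen : ∀ n, (hist p n).length = n := by
      intro n
      simp [hist]
    have hlast : ∀ n, lastMove (hist p (n + 1)) = p n := by
      intro n
      rw [hist, List.range_succ, List.map_append, List.map_singleton, lastMove_append]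
    have hne : ∀ n, hist p (n + 1) ≠ [] := by
      intro n h0
      have := hlen (n + 1)
      rw [h0] at this
      simp at this
    have htake : ∀ n, (hist p (2 * (n + 1) + 1)).take (2 * (n + 1) + 1 - 2) = hist p (2 * n + 1) := by
      intro n
      simp only [hist, ← List.map_take]
      congr 1
      rw [List.take_range]
      congr 1
      omega
    have hq : ∀ n, q (n + 1) = nextCond S d e₁ e₂ (q n) (p (2 * n)) (p (2 * n + 2)) := by
      intro n
      simp only [q]
      rw [cond, dif_neg (by rw [hlen]; omega), hlen, htake, hlast, hlast]
      rfl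
    have hB : ∀ n, p (2 * n + 1) = answer S d e₁ (q n) (p (2 * n)) := by
      intro n
      rw [hfol (2 * n + 1) (by simp)]
      simp only [τ, q]
      rw [hlast]
    have hstep : ∀ n, S (q n) ⊆ (p (2 * n)).cur →
        (q (n + 1) ≤ q n ∧ S (q (n + 1)) ⊆ (p (2 * n + 2)).cur ∧
          S (q (n + 1)) ⊆ (p (2 * n + 1)).cur) := by
      intro n hn
      set a := p (2 * n) with ha
      set q1 := d (q n) a.left with hq1
      have hq1le : q1 ≤ q n := hd1 _ _
      have hspl : a.left ∪ a.right = a.cur := (hp (2 * n)).1.1
      have hY : S q1 ⊆ piece a (decide (S q1 ⊆ a.left)) := by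
        by_cases h : S q1 ⊆ a.left
        · simp [piece, h]
        · simp only [piece, h, decide_false, Bool.false_eq_true, if_false]
          have hdis : Disjoint (S q1) a.left := (hd2 (q n) a.left).resolve_left h
          intro x hx
          have hx2 : x ∈ a.left ∪ a.right := by
            rw [hspl]
            exact hn (hmono _ _ hq1le hx)
          refine hx2.resolve_left fun hxl => ?_
          exact (Set.disjoint_left.mp hdis) hx hxl
      have hans : answer S d e₁ (q n) a = ⟨piece a (decide (S q1 ⊆ a.left)),
          piece a (decide (S q1 ⊆ a.left)) ∩ S (e₁ q1),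
          piece a (decide (S q1 ⊆ a.left)) \ S (e₁ q1)⟩ := rfl
      have hcurB : (p (2 * n + 1)).cur = piece a (decide (S q1 ⊆ a.left)) := by
        rw [hB n, hans]
      have hcur := (hp (2 * n + 2)).cur_eq (hne _)
      rw [hlast] at hcur
      have hqn : q (n + 1) = if (p (2 * n + 2)).cur = (answer S d e₁ (q n) a).left then e₁ q1
          else e₂ q1 := hq n
      by_cases hl : (p (2 * n + 2)).cur = (answer S d e₁ (q n) a).left
      · rw [if_pos hl] at hqn
        have hle : e₁ q1 ≤ q1 := he1 _
        refine ⟨?_, ?_, ?_⟩
        · rw [hqn]; exact hle.trans hq1le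
        · rw [hqn, hl, hans]
          intro x hx
          exact ⟨hY (hmono _ _ hle hx), hx⟩
        · rw [hqn, hcurB]
          exact fun x hx => hY (hmono _ _ hle hx)
      · rw [if_neg hl] at hqn
        have hle : e₂ q1 ≤ q1 := he2 _
        rw [hB n] at hcur
        have hr := hcur.resolve_left hl
        refine ⟨?_, ?_, ?_⟩
        · rw [hqn]; exact hle.trans hq1le
        · rw [hqn, hr, hans]
          intro x hx
          refine ⟨hY (hmono _ _ hle hx), fun hx2 => ?_⟩
          exact (Set.disjoint_left.mp (hdisj q1)) hx2 hx
        · rw [hqn, hcurB]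
          exact fun x hx => hY (hmono _ _ hle hx)
    have hall : ∀ n, S (q n) ⊆ (p (2 * n)).cur := by
      intro n
      induction n with
      | zero =>
        have : (p 0).cur = Set.univ := (hp 0).2.1 (by simp [hist])
        rw [Nat.mul_zero, this]
        exact Set.subset_univ _
      | succ n ih => exact (hstep n ih).2.1
    obtain ⟨x, hx⟩ := hcl q (fun n => (hstep n (hall n)).1)
    rw [Set.mem_iInter] at hx
    have hxin : x ∈ ⋂ n : ℕ, (p (n + 1)).cur := by
      rw [Set.mem_iInter]
      intro n
      rcases Nat.even_or_odd' n with ⟨k, hk | hk⟩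
      · rw [hk]
        exact (hstep k (hall k)).2.2 (hx (k + 1))
      · rw [hk]
        exact (hstep k (hall k)).2.1 (hx (k + 1))
    rw [AWins] at hA
    rw [hA] at hxin
    exact hxin

end backward

section forward

/-- Legal histories of odd length (A has just moved) in which B follows `τ`. -/
def TauHist (τ : List (Move E) → Move E) : Type u :=
  {h : List (Move E) // IsHistory h ∧ Odd h.length ∧
    ∀ (k : ℕ) (hk : k < h.length), Odd k → h[k] = τ (h.take k)}

/-- Longer histories are stronger. -/
@[reducible] def tauPreorder (τ : List (Move E) → Move E) : Preorder (TauHist τ) where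
  le q' q := q.1 <+: q'.1
  le_refl q := List.prefix_refl _
  le_trans a b c h1 h2 := List.IsPrefix.trans h2 h1

lemma isHistory_append {h : List (Move E)} {m : Move E} (hh : IsHistory h) (hm : Legal h m) :
    IsHistory (h ++ [m]) := by
  intro j hj
  simp only [List.length_append, List.length_singleton] at hj
  by_cases hj' : j < h.length
  · rw [List.take_append_of_le_length hj'.le, List.getElem_append_left hj']
    exact hh j hj'
  · have : j = h.length := by omega
    subst this
    simpa using hm

lemma ne_nil_of_odd {h : List (Move E)} (ho : Odd h.length) : h ≠ [] := by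
  rintro rfl
  simp at ho

/-- A's move: pick piece `c` of `b` and split it by `Z`. -/
def aMove (b : Move E) (c : Bool) (Z : Set E) : Move E :=
  ⟨piece b c, piece b c ∩ Z, piece b c \ Z⟩

lemma aMove_legal {h : List (Move E)} (hne : h ≠ []) (c : Bool) (Z : Set E) :
    Legal h (aMove (lastMove h) c Z) := by
  refine legal_of_ne_nil hne ⟨?_, ?_⟩ c rfl
  · simp [aMove]
  · simp only [aMove]
    rw [Set.disjoint_left]
    intro x h1 h2
    exact h2.2 h1.2

/-- One more round: B answers by `τ`, A picks piece `c` and splits it by `Z`. -/
def ext (τ : List (Move E) → Move E) (hτ : IsStrategyB τ) (q : TauHist τ) (c : Bool) (Z : Set E) :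
    TauHist τ :=
  ⟨(q.1 ++ [τ q.1]) ++ [aMove (τ q.1) c Z], by
    have h1 : IsHistory (q.1 ++ [τ q.1]) := isHistory_append q.2.1 (hτ _ q.2.1 q.2.2.1)
    have h2 : Legal (q.1 ++ [τ q.1]) (aMove (τ q.1) c Z) := by
      have := aMove_legal (h := q.1 ++ [τ q.1]) (by simp) c Z
      rwa [lastMove_append] at this
    refine ⟨isHistory_append h1 h2, ?_, ?_⟩
    · have := q.2.2.1
      simp only [List.length_append, List.length_singleton]
      rcases this with ⟨k, hk⟩
      exact ⟨k + 1, by omega⟩
    · intro k hk hodd
      simp only [List.length_append, List.length_singleton] at hk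
      have hodd' := q.2.2.1
      have hkle : k < q.1.length + 1 := by
        rcases hodd with ⟨a, ha⟩
        rcases hodd' with ⟨b, hb⟩
        omega
      rw [List.getElem_append_left (by simp; omega),
        List.take_append_of_le_length (by simp; omega)]
      by_cases hk2 : k < q.1.length
      · rw [List.getElem_append_left hk2, List.take_append_of_le_length hk2.le]
        exact q.2.2.2 k hk2 hodd
      · have : k = q.1.length := by omega
        subst this
        simp⟩

/-- the current set of a condition -/
def curSet {τ : List (Move E) → Move E} (q : TauHist τ) : Set E := (lastMove q.1).cur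

lemma curSet_ext (τ : List (Move E) → Move E) (hτ : IsStrategyB τ) (q : TauHist τ) (c : Bool)
    (Z : Set E) : curSet (ext τ hτ q c Z) = piece (τ q.1) c := by
  change (lastMove ((q.1 ++ [τ q.1]) ++ [aMove (τ q.1) c Z])).cur = _
  rw [lastMove_append]
  rfl

lemma piece_subset {h : List (Move E)} {m : Move E} (hm : Legal h m) (c : Bool) :
    piece m c ⊆ m.cur := by
  have := hm.1.1
  intro x hx
  rw [← this]
  cases c
  · right; simpa [piece] using hx
  · left; simpa [piece] using hx

lemma cur_subset_of_legal {h : List (Move E)} (hne : h ≠ []) (hh : IsHistory h) {m : Move E}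
    (hm : Legal h m) : m.cur ⊆ (lastMove h).cur := by
  have hlt : h.length - 1 < h.length := by
    have := List.length_pos_iff.mpr hne
    omega
  have hl := hh (h.length - 1) hlt
  have hlast : lastMove h = h[h.length - 1] := by
    simp only [lastMove]
    rw [List.getLast?_eq_getElem?]
    simp [hlt]
  rw [← hlast] at hl
  have := hl.1.1
  rcases hm.cur_eq hne with h1 | h1
  · rw [h1, ← this]; exact Set.subset_union_left
  · rw [h1, ← this]; exact Set.subset_union_right

lemma cur_antitone {h h' : List (Move E)} (hh : IsHistory h') (hne : h ≠ []) (hp : h <+: h') :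
    (lastMove h').cur ⊆ (lastMove h).cur := by
  obtain ⟨t, rfl⟩ := hp
  induction t using List.reverseRecOn with
  | nil => simp
  | append_singleton t m ih =>
    rw [← List.append_assoc] at hh ⊢
    have hpre : IsHistory (h ++ t) := by
      intro k hk
      have hk' : k < ((h ++ t) ++ [m]).length := by simp; simp at hk; omega
      have := hh k hk'
      rwa [List.take_append_of_le_length hk.le, List.getElem_append_left hk] at this
    have hleg : Legal (h ++ t) m := by
      have h3 := hh (h ++ t).length (by simp)
      rw [List.take_append_of_le_length le_rfl, List.take_length,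
        List.getElem_append_right le_rfl] at h3
      simpa using h3
    have h1 := cur_subset_of_legal (by simp [hne]) hpre hleg
    rw [lastMove_append]
    exact h1.trans (ih hpre)

open Classical in
/-- The rule which prolongs the chain of histories `s`. -/
noncomputable def follow (τ : List (Move E) → Move E) (s : ℕ → TauHist τ) (h : List (Move E)) :
    Move E :=
  if H : ∃ m, ∃ n, (h ++ [m]) <+: (s n).1 then H.choose
  else if Odd h.length then τ h else aMove (lastMove h) true Set.univ

theorem hasSplittingSystem_of_bWins (hB : BHasWinningStrategy E) : HasSplittingSystem E := by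
  obtain ⟨τ, hτ, hwin⟩ := hB
  let _ := tauPreorder τ
  have hle : ∀ q q' : TauHist τ, q' ≤ q ↔ q.1 <+: q'.1 := fun _ _ => Iff.rfl
  have hext : ∀ q c Z, ext τ hτ q c Z ≤ q := by
    intro q c Z
    rw [hle]
    exact ⟨[τ q.1] ++ [aMove (τ q.1) c Z], by simp [ext]⟩
  -- the root
  have hroot : IsHistory ([⟨Set.univ, Set.univ, ∅⟩] : List (Move E)) := by
    intro k hk
    have : k = 0 := by simpa using hk
    subst this
    refine ⟨⟨by simp, by simp⟩, fun _ => rfl, fun a ha => by simp at ha⟩
  refine ⟨TauHist τ, tauPreorder τ, ⟨⟨[⟨Set.univ, Set.univ, ∅⟩], hroot, by simp, ?_⟩⟩,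
    curSet, ?_, ?_, ?_, ?_⟩
  · intro k hk hodd
    have : k = 0 := by simpa using hk
    subst this
    simp at hodd
  · intro q q' hqq
    exact cur_antitone q'.2.1 (ne_nil_of_odd q.2.2.1) hqq
  · intro q X
    let q1 := ext τ hτ q true X
    let q2 := ext τ hτ q1 true Set.univ
    refine ⟨q2, (hext _ _ _).trans (hext _ _ _), ?_⟩
    have hleg1 : Legal q1.1 (τ q1.1) := hτ _ q1.2.1 q1.2.2.1
    have hcur := hleg1.cur_eq (ne_nil_of_odd q1.2.2.1)
    have hlast : lastMove q1.1 = aMove (τ q.1) true X := by
      change lastMove ((q.1 ++ [τ q.1]) ++ [aMove (τ q.1) true X]) = _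
      rw [lastMove_append]
    rw [hlast] at hcur
    have hsub : curSet q2 ⊆ (τ q1.1).cur := by
      rw [curSet_ext]
      exact piece_subset hleg1 true
    rcases hcur with h1 | h1
    · left
      refine hsub.trans ?_
      rw [h1]
      exact Set.inter_subset_right
    · right
      refine Set.disjoint_of_subset_left hsub ?_
      rw [h1]
      exact Set.disjoint_left.mpr fun x hx hx2 => hx.2 hx2
  · intro q
    refine ⟨ext τ hτ q true Set.univ, hext _ _ _, ext τ hτ q false Set.univ, hext _ _ _, ?_⟩
    rw [curSet_ext, curSet_ext]
    have := (hτ _ q.2.1 q.2.2.1).1.2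
    simpa [piece] using this
  · intro s hs
    have hchain : ∀ m n, m ≤ n → (s m).1 <+: (s n).1 := by
      intro m n hmn
      induction n, hmn using Nat.le_induction with
      | base => exact List.prefix_refl _
      | succ n _ ih => exact ih.trans (hs n)
    set F := follow τ s with hF
    have claim1 : ∀ n k, k ≤ (s n).1.length → gen F k = (s n).1.take k := by
      intro n k
      induction k with
      | zero => intro _; simp [gen]
      | succ k ih =>
        intro hk
        have hk' : k < (s n).1.length := by omega
        have h1 := ih hk'.le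
        have h2 : (s n).1.take (k + 1) = (s n).1.take k ++ [(s n).1[k]] := by
          simp
        have H : ∃ m, ∃ n, (gen F k ++ [m]) <+: (s n).1 := by
          refine ⟨(s n).1[k], n, ?_⟩
          rw [h1, ← h2]
          exact List.take_prefix _ _
        have h3 : F (gen F k) = H.choose := by
          change follow τ s (gen F k) = _
          unfold follow
          exact dif_pos H
        obtain ⟨n', hn'⟩ := H.choose_spec
        rw [gen, h3]
        have hlenk : (gen F k).length = k := length_gen F k
        rcases le_total n n' with hnn | hnn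
        · have h4 : (s n).1.take (k + 1) <+: (s n').1 :=
            (List.take_prefix _ _).trans (hchain _ _ hnn)
          have h5 := List.prefix_of_prefix_length_le hn' h4 (by simp [hlenk]; omega)
          exact h5.eq_of_length (by simp [hlenk]; omega)
        · have h4 : (gen F k ++ [H.choose]) <+: (s n).1 := hn'.trans (hchain _ _ hnn)
          have h5 := List.prefix_of_prefix_length_le h4 (List.take_prefix (k + 1) (s n).1)
            (by simp [hlenk]; omega)
          exact h5.eq_of_length (by simp [hlenk]; omega)
    have claim2 : ∀ k, Legal (hist (play F) k) (play F k) ∧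
        (Odd k → play F k = τ (hist (play F) k)) := by
      intro k
      induction k using Nat.strong_induction_on with
      | _ k ih =>
        have hh : IsHistory (hist (play F) k) := isHistory_hist fun j hj => (ih j hj).1
        rw [hist_play] at hh ⊢
        have hlenk : (gen F k).length = k := length_gen F k
        by_cases H : ∃ m, ∃ n, (gen F k ++ [m]) <+: (s n).1
        · obtain ⟨m, n, hmn⟩ := H
          have hlt : k < (s n).1.length := by
            have := hmn.length_le
            rw [List.length_append, hlenk] at this
            simpa using this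
          have h1 := claim1 n k hlt.le
          have h2 := claim1 n (k + 1) hlt
          have h3 : play F k = (s n).1[k] := by
            have h4 : (s n).1.take (k + 1) = (s n).1.take k ++ [(s n).1[k]] := by simp
            rw [h4, gen, h1] at h2
            have := List.append_cancel_left h2
            simp only [List.cons.injEq, and_true] at this
            rw [← this, play, h1]
          constructor
          · rw [h3, h1]
            exact (s n).2.1 k hlt
          · intro hodd
            rw [h3, h1]
            exact (s n).2.2.2 k hlt hodd
        · have h3 : play F k = if Odd (gen F k).length then τ (gen F k)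
              else aMove (lastMove (gen F k)) true Set.univ := by
            change follow τ s (gen F k) = _
            unfold follow
            exact dif_neg H
          by_cases hodd : Odd k
          · rw [hlenk, if_pos hodd] at h3
            rw [h3]
            exact ⟨hτ _ hh (by rw [hlenk]; exact hodd), fun _ => rfl⟩
          · rw [hlenk, if_neg hodd] at h3
            rw [h3]
            refine ⟨aMove_legal ?_ _ _, fun h => absurd h hodd⟩
            intro h0
            apply H
            have hpos : 0 < (s 0).1.length := (s 0).2.2.1.pos
            refine ⟨(s 0).1[0], 0, ?_⟩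
            rw [h0]
            have := List.take_prefix 1 (s 0).1
            rwa [List.take_one, List.head?_eq_getElem?, List.getElem?_eq_getElem hpos] at this
    have hnA := hwin (play F) (fun k => (claim2 k).1) (fun k hk => (claim2 k).2 hk)
    rw [AWins, ← Ne, ← Set.nonempty_iff_ne_empty] at hnA
    obtain ⟨x, hx⟩ := hnA
    rw [Set.mem_iInter] at hx
    refine ⟨x, ?_⟩
    rw [Set.mem_iInter]
    intro n
    have hpos : 0 < (s n).1.length := (s n).2.2.1.pos
    have h1 := claim1 n (s n).1.length le_rfl
    rw [List.take_length] at h1
    obtain ⟨l, hl⟩ : ∃ l, (s n).1.length = l + 1 := ⟨(s n).1.length - 1, by omega⟩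
    have h2 : lastMove (s n).1 = play F l := by
      rw [← h1, hl, gen, lastMove_append, play]
    rw [curSet, h2]
    cases l with
    | zero =>
      have := (claim2 0).1.2.1 (by simp [hist])
      rw [this]
      trivial
    | succ l => exact hx l

end forward

theorem bWins_iff : BHasWinningStrategy E ↔ HasSplittingSystem E :=
  ⟨hasSplittingSystem_of_bWins, HasSplittingSystem.bWins⟩

end Pool.Agent.H656R2.SplitGame
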