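import Mathlib

/-!
# The set-splitting game `G(E)`

Definitions shared by the results on the set-splitting game.  Moves are numbered `0, 1, 2, …`;
player A makes the moves with even number, player B those with odd number.
-/

universe u

namespace Pool.Agent.H656R2.SplitGame

/-- One move of the game `G(E)`: the player on turn names the current set `cur`
(at move `0` this is the whole set `E`, at a later move it is the piece he picks among the two
pieces produced by the previous move) and splits it into the two pieces `left` and `right`. -/
structure Move (E : Type u) where
  /-- the set picked at this move -/
  cur : Set E
  /-- first piece -/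
  left : Set E
  /-- second piece -/
  right : Set E

variable {E : Type u}

/-- `m` is a legal move after the finite history `h` (moves in chronological order):
`left` and `right` are disjoint sets with union `cur`; at the first move `cur` is all of `E`;
later `cur` is one of the two pieces produced by the last move of `h`. -/
def Legal (h : List (Move E)) (m : Move E) : Prop :=
  (m.left ∪ m.right = m.cur ∧ Disjoint m.left m.right) ∧
    (h = [] → m.cur = Set.univ) ∧
    (∀ a ∈ h.getLast?, m.cur = a.left ∨ m.cur = a.right)

/-- A legal finite history: every move in it is legal after the moves before it. -/
def IsHistory (h : List (Move E)) : Prop :=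
  ∀ (k : ℕ) (hk : k < h.length), Legal (h.take k) h[k]

/-- The history consisting of the first `n` moves of the infinite sequence of moves `p`. -/
def hist (p : ℕ → Move E) (n : ℕ) : List (Move E) := (List.range n).map p

/-- An infinite play: every move is legal after the moves before it. -/
def IsPlay (p : ℕ → Move E) : Prop := ∀ n, Legal (hist p n) (p n)

/-- A strategy for player A: it gives a legal move at every legal finite history
of even length (these are the histories at which A is on turn). -/
def IsStrategyA (σ : List (Move E) → Move E) : Prop :=
  ∀ h, IsHistory h → Even h.length → Legal h (σ h)

/-- A strategy for player B: it gives a legal move at every legal finite history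
of odd length (these are the histories at which B is on turn). -/
def IsStrategyB (τ : List (Move E) → Move E) : Prop :=
  ∀ h, IsHistory h → Odd h.length → Legal h (τ h)

/-- A wins the play `p` if the intersection of the sets `X₁ ⊇ X₂ ⊇ …` picked at the moves
`1, 2, …` is empty; otherwise B wins it. -/
def AWins (p : ℕ → Move E) : Prop := ⋂ n : ℕ, (p (n + 1)).cur = ∅

/-- Player A has a winning strategy in `G(E)`. -/
def AHasWinningStrategy (E : Type u) : Prop :=
  ∃ σ : List (Move E) → Move E, IsStrategyA σ ∧
    ∀ p : ℕ → Move E, IsPlay p → (∀ n, Even n → p n = σ (hist p n)) → AWins p

/-- Player B has a winning strategy in `G(E)`. -/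
def BHasWinningStrategy (E : Type u) : Prop :=
  ∃ τ : List (Move E) → Move E, IsStrategyB τ ∧
    ∀ p : ℕ → Move E, IsPlay p → (∀ n, Odd n → p n = τ (hist p n)) → ¬ AWins p

end Pool.Agent.H656R2.SplitGame
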