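import Pool.Agent.H656R2.SplitGame.Basic

universe u

open Cardinal

namespace Pool.Agent.H656R2.SplitGame

variable {E : Type u}

/-- Histories in which A follows `σ` and B always splits according to some bit of `g`. -/
def bitHist (σ : List (Move E) → Move E) (g : E → ℕ → Bool) : List (Bool × ℕ) → List (Move E)
  | [] => [σ []]
  | (b, n) :: c =>
      (bitHist σ g c ++ [bitMove g (piece (lastMove (bitHist σ g c)) b) n]) ++
        [σ (bitHist σ g c ++ [bitMove g (piece (lastMove (bitHist σ g c)) b) n])]

open Classical in
/-- The only code which B cannot save at the position `(c, b)`. -/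
noncomputable def bad (σ : List (Move E) → Move E) (g : E → ℕ → Bool)
    (cb : List (Bool × ℕ) × Bool) (n : ℕ) : Bool :=
  if (σ (bitHist σ g cb.1 ++ [bitMove g (piece (lastMove (bitHist σ g cb.1)) cb.2) n])).cur
      = (bitMove g (piece (lastMove (bitHist σ g cb.1)) cb.2) n).left then false else true

/-- A map to the Cantor space with uncountable range. -/
lemma exists_code (E : Type u) [Uncountable E] :
    ∃ g : E → ℕ → Bool, ¬ (Set.range g).Countable := by
  -- a set of reals of size aleph one
  let T : Type := Quotient.out (ℵ_ 1 : Cardinal.{0})
  have hT : #T = ℵ_ 1 := Cardinal.mk_out _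
  have h1 : Nonempty (T ↪ E) := by
    rw [← Cardinal.lift_mk_le']
    rw [hT, Cardinal.lift_aleph, Ordinal.lift_one]
    have : ℵ₀ < #E := Cardinal.aleph0_lt_mk
    rw [← Cardinal.succ_aleph0]
    simp [this]
  have h2 : Nonempty (T ↪ (ℕ → Bool)) := by
    rw [← Cardinal.lift_mk_le']
    simp only [Cardinal.lift_id, hT]
    rw [← Cardinal.succ_aleph0]
    apply Order.succ_le_of_lt
    have : #(ℕ → Bool) = 2 ^ ℵ₀ := by simp
    rw [this]
    exact Cardinal.cantor _
  obtain ⟨i⟩ := h1
  obtain ⟨j⟩ := h2
  have hTu : Uncountable T := by
    rw [← Cardinal.aleph0_lt_mk_iff, hT]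
    exact Cardinal.aleph0_lt_aleph_one
  classical
  refine ⟨fun y => if h : ∃ t, i t = y then j h.choose else fun _ => false, ?_⟩
  intro hc
  have hsub : Set.range j ⊆ Set.range (fun y => if h : ∃ t, i t = y then j h.choose
      else fun _ => false) := by
    rintro _ ⟨t, rfl⟩
    refine ⟨i t, ?_⟩
    have h : ∃ t', i t' = i t := ⟨t, rfl⟩
    have h2 : h.choose = t := i.injective h.choose_spec
    simp only
    rw [dif_pos h, h2]
  have := hc.mono hsub
  have h3 : Countable T := by
    have h4 : (j '' Set.univ).Countable := by simpa [Set.image_univ] using this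
    have := (Set.countable_of_injective_of_countable_image (s := Set.univ)
      (fun a _ b _ hab => j.injective hab) h4)
    exact Set.countable_univ_iff.mp this
  exact (not_countable_iff.mpr hTu) h3

/-- B's rule for keeping the point `x`. -/
noncomputable def keep (σ : List (Move E) → Move E) (g : E → ℕ → Bool) (x : E)
    (h : List (Move E)) : Move E := by
  classical
  exact
    let X := piece (lastMove h) (decide (x ∈ (lastMove h).left))
    bitMove g X (if H : ∃ n, x ∈ (σ (h ++ [bitMove g X n])).cur then H.choose else 0)

lemma keep_isStrategyB (σ : List (Move E) → Move E) (g : E → ℕ → Bool) (x : E) :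
    IsStrategyB (keep σ g x) := by
  intro h _ hodd
  have hne : h ≠ [] := by
    rintro rfl
    simp at hodd
  classical
  refine legal_of_ne_nil hne (bitMove_splits _ _ _) (decide (x ∈ (lastMove h).left)) ?_
  simp [keep, bitMove]

theorem not_AHasWinningStrategy (E : Type u) [Uncountable E] : ¬ AHasWinningStrategy E := by
  rintro ⟨σ, hσ, hwin⟩
  obtain ⟨g, hg⟩ := exists_code E
  have hbad : (Set.range (bad σ g)).Countable := Set.countable_range _
  obtain ⟨y, hy, hyb⟩ : ∃ y ∈ Set.range g, y ∉ Set.range (bad σ g) := by
    by_contra hcon
    push Not at hcon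
    exact hg (hbad.mono hcon)
  obtain ⟨x, rfl⟩ := hy
  set F := comb σ (keep σ g x) with hF
  have hplay : IsPlay (play F) := isPlay_comb hσ (keep_isStrategyB σ g x)
  have key : ∀ k : ℕ, (∃ c, gen F (2 * k + 1) = bitHist σ g c) ∧
      x ∈ (lastMove (gen F (2 * k + 1))).cur ∧
      (∀ j, 1 ≤ j → j ≤ 2 * k → x ∈ (play F j).cur) := by
    intro k
    induction k with
    | zero =>
      refine ⟨⟨[], ?_⟩, ?_, ?_⟩
      · simp [gen, bitHist, hF, comb]
      · have := (hplay 0).2.1 (by simp [hist])
        have h2 : lastMove (gen F (2 * 0 + 1)) = play F 0 := by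
          simp [gen, play]
        rw [h2, this]
        trivial
      · intro j h1 h2
        omega
    | succ k ih =>
      obtain ⟨⟨c, hc⟩, hx, hall⟩ := ih
      -- B's move
      have hne : gen F (2 * k + 1) ≠ [] := by simp [gen]
      have hBm : play F (2 * k + 1) = keep σ g x (gen F (2 * k + 1)) := by
        have := play_comb_odd (σ := σ) (τ := keep σ g x) (n := 2 * k + 1) (by simp)
        rw [hist_play] at this
        exact this
      have hg2 : gen F (2 * k + 2) = gen F (2 * k + 1) ++ [play F (2 * k + 1)] := rfl
      have hg3 : gen F (2 * (k + 1) + 1) = gen F (2 * k + 2) ++ [play F (2 * k + 2)] := rfl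
      have hAm : play F (2 * k + 2) = σ (gen F (2 * k + 2)) := by
        have := play_comb_even (σ := σ) (τ := keep σ g x) (n := 2 * k + 2)
          (by exact ⟨k + 1, by ring⟩)
        rw [hist_play] at this
        exact this
      -- the last move of A is legal, so x lies in one of the two pieces
      have hlast : lastMove (gen F (2 * k + 1)) = play F (2 * k) := by
        simp [gen, play]
      have hsplit := (hplay (2 * k)).1.1
      rw [← hlast] at hsplit
      classical
      set a := lastMove (gen F (2 * k + 1)) with ha
      set b := decide (x ∈ a.left) with hb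
      set X := piece a b with hX
      have hxX : x ∈ X := by
        rw [hX, piece, hb]
        by_cases h : x ∈ a.left
        · simp [h]
        · have : x ∈ a.left ∪ a.right := by rw [hsplit]; exact hx
          simp only [h, decide_false, Bool.false_eq_true, if_false]
          exact this.resolve_left h
      -- there is a bit that works
      have hex : ∃ n, x ∈ (σ (gen F (2 * k + 1) ++ [bitMove g X n])).cur := by
        have hne' : g x ≠ bad σ g (c, b) := fun h => hyb ⟨_, h.symm⟩
        obtain ⟨n, hn⟩ := Function.ne_iff.mp hne'
        refine ⟨n, ?_⟩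
        -- legality of A's answer
        have hleg1 : Legal (gen F (2 * k + 1)) (bitMove g X n) :=
          legal_of_ne_nil hne (bitMove_splits _ _ _) b rfl
        have hH : IsHistory (gen F (2 * k + 1) ++ [bitMove g X n]) := by
          have h0 : IsHistory (gen F (2 * k + 1)) := by
            rw [← hist_play]
            exact isHistory_hist fun j _ => hplay j
          intro j hj
          simp only [List.length_append, List.length_singleton] at hj
          by_cases hj' : j < (gen F (2 * k + 1)).length
          · rw [List.take_append_of_le_length hj'.le, List.getElem_append_left hj']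
            exact h0 j hj'
          · have : j = (gen F (2 * k + 1)).length := by omega
            subst this
            simpa using hleg1
        have hA := hσ _ hH (by
          rw [List.length_append, length_gen, List.length_singleton]
          exact ⟨k + 1, by ring⟩)
        have hcur := hA.cur_eq (by simp)
        rw [lastMove_append] at hcur
        simp only [bad] at hn
        rw [← hc, ← ha, ← hX] at hn
        by_cases hl : (σ (gen F (2 * k + 1) ++ [bitMove g X n])).cur = (bitMove g X n).left
        · rw [if_pos hl] at hn
          rw [hl]
          refine ⟨hxX, ?_⟩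
          simpa using hn
        · rw [if_neg hl] at hn
          rw [hcur.resolve_left hl]
          refine ⟨hxX, ?_⟩
          simpa using hn
      have hkeep : keep σ g x (gen F (2 * k + 1)) = bitMove g X hex.choose := by
        simp only [keep]
        rw [dif_pos hex]
      have hxA : x ∈ (play F (2 * k + 2)).cur := by
        rw [hAm, hg2, hBm, hkeep]
        exact hex.choose_spec
      refine ⟨⟨(b, hex.choose) :: c, ?_⟩, ?_, ?_⟩
      · rw [hg3, hAm, hg2, hBm, hkeep, bitHist, ← hc]
      · rw [hg3, lastMove_append]
        exact hxA
      · intro j h1 h2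
        by_cases hj : j ≤ 2 * k
        · exact hall j h1 hj
        · by_cases hj2 : j = 2 * k + 1
          · rw [hj2, hBm, hkeep]
            exact hxX
          · have : j = 2 * k + 2 := by omega
            rw [this]
            exact hxA
  have hw := hwin (play F) hplay (fun n hn => play_comb_even hn)
  have hxin : x ∈ ⋂ n : ℕ, (play F (n + 1)).cur := by
    rw [Set.mem_iInter]
    intro n
    exact (key (n + 1)).2.2 (n + 1) (by omega) (by omega)
  rw [AWins] at hw
  rw [hw] at hxin
  exact hxin

end Pool.Agent.H656R2.SplitGame
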