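import Pool.Agent.H656R2.SplitGame.Basic

universe u

open Cardinal

namespace Pool.Agent.H656R2.SplitGame

variable {E : Type u}

/-- Distinct representatives for `#J` sets of size at least `#J`. -/
lemma exists_distinct_reps {J C : Type} (F : J → Set C) (hF : ∀ j, #J ≤ #(F j)) :
    ∃ φ : J → C, Function.Injective φ ∧ ∀ j, φ j ∈ F j := by
  classical
  obtain ⟨lo, wf, hord⟩ := Cardinal.exists_ord_eq_type_lt J
  have hex : ∀ (j : J) (rec : ∀ k, k < j → C),
      ∃ y ∈ F j, ∀ k (hk : k < j), rec k hk ≠ y := by
    intro j rec
    by_contra hcon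
    push Not at hcon
    have hsub : F j ⊆ Set.range (fun k : Set.Iio j => rec k.1 k.2) := by
      intro y hy
      obtain ⟨k, hk, h⟩ := hcon y hy
      exact ⟨⟨k, hk⟩, h⟩
    have h1 : #(F j) ≤ #(Set.Iio j) := (Cardinal.mk_le_mk_of_subset hsub).trans
      Cardinal.mk_range_le
    have h2 := Cardinal.mk_Iio_lt j hord
    exact absurd ((hF j).trans h1) (not_le.mpr h2)
  let φ : J → C := wf.wf.fix (fun j rec => (hex j rec).choose)
  have hφ : ∀ j, φ j = (hex j (fun k _ => φ k)).choose := fun j => wf.wf.fix_eq _ j
  refine ⟨φ, ?_, ?_⟩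
  · have key : ∀ j k, k < j → φ k ≠ φ j := by
      intro j k hk
      rw [hφ j]
      exact (hex j (fun k _ => φ k)).choose_spec.2 k hk
    intro j k hjk
    rcases lt_trichotomy j k with h | h | h
    · exact absurd hjk (key k j h)
    · exact h
    · exact absurd hjk.symm (key j k h)
  · intro j
    rw [hφ j]
    exact (hex j (fun k _ => φ k)).choose_spec.1

/-- the first `n` values of `a`, the most recent first -/
def pre (a : ℕ → Bool) : ℕ → List Bool
  | 0 => []
  | n + 1 => a n :: pre a n

lemma length_pre (a : ℕ → Bool) (n : ℕ) : (pre a n).length = n := by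
  induction n with
  | zero => rfl
  | succ n ih => simp [pre, ih]

lemma pre_congr {a a' : ℕ → Bool} {n : ℕ} (h : ∀ k < n, a k = a' k) : pre a n = pre a' n := by
  induction n with
  | zero => rfl
  | succ n ih =>
    rw [pre, pre, h n (by omega), ih fun k hk => h k (by omega)]

/-- the map of the Cantor space to itself coded by `H` -/
def lip (H : List Bool → Bool) (a : ℕ → Bool) (n : ℕ) : Bool := H (pre a n)

/-- A Bernstein-like set: a set `X` of codes of size continuum containing no range
of an injective map of the form `lip H`. -/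
lemma exists_bernstein {E : Type u} (hE : #E ≤ 𝔠) :
    ∃ g : E → ℕ → Bool, Function.Injective g ∧
      ∀ H : List Bool → Bool, Function.Injective (lip H) →
        ¬ Set.range (lip H) ⊆ Set.range g := by
  classical
  let I := List Bool → Bool
  have hI : #I = 𝔠 := by
    simp [I]
  have hC : #(ℕ → Bool) = 𝔠 := by simp
  let F : I × Bool → Set (ℕ → Bool) := fun i =>
    if Function.Injective (lip i.1) then Set.range (lip i.1) else Set.univ
  have hJ : #(I × Bool) = 𝔠 := by
    rw [Cardinal.mk_prod, hI]
    simp
  have hF : ∀ j, #(I × Bool) ≤ #(F j) := by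
    intro j
    rw [hJ]
    by_cases h : Function.Injective (lip j.1)
    · simp only [F, if_pos h]
      rw [Cardinal.mk_range_eq _ h, hC]
    · simp only [F, if_neg h]
      rw [Cardinal.mk_univ, hC]
  obtain ⟨φ, hinj, hmem⟩ := exists_distinct_reps F hF
  have hemb : Nonempty (E ↪ I) := by
    rw [← Cardinal.lift_mk_le', hI]
    simpa using hE
  obtain ⟨e⟩ := hemb
  refine ⟨fun x => φ (e x, true), ?_, ?_⟩
  · intro x y hxy
    have := hinj hxy
    exact e.injective (Prod.ext_iff.mp this).1
  · intro H hH hsub
    have h1 : φ (H, false) ∈ F (H, false) := hmem _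
    simp only [F, if_pos hH] at h1
    obtain ⟨x, hx⟩ := hsub h1
    have := hinj hx
    simpa using (Prod.ext_iff.mp this).2

/-- Histories in which B follows `τ`, A splits by bits, and picks the pieces given by the list. -/
def bHist (τ : List (Move E) → Move E) (g : E → ℕ → Bool) : List Bool → List (Move E)
  | [] => [bitMove g Set.univ 0]
  | c :: l => (bHist τ g l ++ [τ (bHist τ g l)]) ++
      [bitMove g (piece (τ (bHist τ g l)) c) (l.length + 1)]

open Classical in
/-- A's rule for the code `a`. -/
noncomputable def ruleA (g : E → ℕ → Bool) (a : ℕ → Bool) (h : List (Move E)) : Move E :=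
  if h = [] then bitMove g Set.univ 0
  else bitMove g (piece (lastMove h) (a (h.length / 2 - 1))) (h.length / 2)

lemma ruleA_isStrategyA (g : E → ℕ → Bool) (a : ℕ → Bool) : IsStrategyA (ruleA g a) := by
  intro h _ _
  by_cases hne : h = []
  · subst hne
    refine ⟨?_, ?_, ?_⟩
    · simp only [ruleA, if_true]
      exact bitMove_splits _ _ _
    · intro _
      simp [ruleA, bitMove]
    · intro b hb
      simp at hb
  · rw [ruleA, if_neg hne]
    exact legal_of_ne_nil hne (bitMove_splits _ _ _) _ rfl

lemma gen_ruleA (τ : List (Move E) → Move E) (g : E → ℕ → Bool) (a : ℕ → Bool) (n : ℕ) :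
    gen (comb (ruleA g a) τ) (2 * n + 1) = bHist τ g (pre a n) := by
  induction n with
  | zero =>
    simp [gen, bHist, pre, comb, ruleA]
  | succ n ih =>
    have hl1 : (gen (comb (ruleA g a) τ) (2 * n + 1)).length = 2 * n + 1 := length_gen _ _
    have h1 : gen (comb (ruleA g a) τ) (2 * n + 2)
        = bHist τ g (pre a n) ++ [τ (bHist τ g (pre a n))] := by
      rw [gen]
      have : comb (ruleA g a) τ (gen (comb (ruleA g a) τ) (2 * n + 1))
          = τ (gen (comb (ruleA g a) τ) (2 * n + 1)) := by
        rw [comb, if_neg]
        rw [hl1]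
        simp
      rw [this, ih]
    have hl2 : (gen (comb (ruleA g a) τ) (2 * n + 2)).length = 2 * n + 2 := length_gen _ _
    have h2 : comb (ruleA g a) τ (gen (comb (ruleA g a) τ) (2 * n + 2))
        = bitMove g (piece (τ (bHist τ g (pre a n))) (a n)) (n + 1) := by
      rw [comb, if_pos (by rw [hl2]; exact ⟨n + 1, by ring⟩), ruleA, if_neg, hl2, h1,
        lastMove_append]
      · have e1 : (2 * n + 2) / 2 = n + 1 := by omega
        rw [e1]
        simp
      · rw [h1]
        simp
    have h3 : gen (comb (ruleA g a) τ) (2 * (n + 1) + 1)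
        = gen (comb (ruleA g a) τ) (2 * n + 2) ++
          [comb (ruleA g a) τ (gen (comb (ruleA g a) τ) (2 * n + 2))] := rfl
    rw [h3, h2, h1, pre, bHist, length_pre]

theorem not_BHasWinningStrategy (E : Type u) (hE : #E ≤ 𝔠) : ¬ BHasWinningStrategy E := by
  rintro ⟨τ, hτ, hwin⟩
  classical
  obtain ⟨g, hginj, hg⟩ := exists_bernstein hE
  let H : List Bool → Bool := fun l => decide ((τ (bHist τ g l)).cur = (lastMove (bHist τ g l)).left)
  have hplay : ∀ a, IsPlay (play (comb (ruleA g a) τ)) := fun a =>
    isPlay_comb (ruleA_isStrategyA g a) hτ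
  have hne : ∀ a, ∃ x, ∀ n, x ∈ (play (comb (ruleA g a) τ) (n + 1)).cur := by
    intro a
    have := hwin _ (hplay a) (fun n hn => play_comb_odd hn)
    rw [AWins, ← Ne, ← Set.nonempty_iff_ne_empty] at this
    obtain ⟨x, hx⟩ := this
    exact ⟨x, Set.mem_iInter.mp hx⟩
  choose f hf using hne
  have hodd : ∀ a n, play (comb (ruleA g a) τ) (2 * n + 1) = τ (bHist τ g (pre a n)) := by
    intro a n
    have := play_comb_odd (σ := ruleA g a) (τ := τ) (n := 2 * n + 1) (by simp)
    rw [hist_play, gen_ruleA] at this
    exact this
  have hlast : ∀ a n, lastMove (bHist τ g (pre a n)) = bitMove g (lastMove (bHist τ g (pre a n))).cur n := by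
    intro a n
    cases n with
    | zero => simp [bHist, pre, bitMove]
    | succ n =>
      rw [pre, bHist, lastMove_append, length_pre]
      rfl
  -- the bits of the surviving point
  have hbits : ∀ a n, g (f a) n = lip H a n := by
    intro a n
    have hx := hf a (2 * n)
    rw [hodd] at hx
    have hleg := hplay a (2 * n + 1)
    rw [hodd, hist_play, gen_ruleA] at hleg
    have hcur := hleg.cur_eq (by
      intro h0
      have := congrArg List.length h0
      rw [← gen_ruleA, length_gen] at this
      simp at this)
    simp only [lip, H]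
    by_cases hl : (τ (bHist τ g (pre a n))).cur = (lastMove (bHist τ g (pre a n))).left
    · rw [hl, hlast] at hx
      rw [decide_eq_true hl]
      exact hx.2
    · rw [hcur.resolve_left hl, hlast] at hx
      rw [decide_eq_false hl]
      exact hx.2
  -- injectivity
  have hfinj : Function.Injective f := by
    intro a a' haa
    by_contra hne
    have hex : ∃ n, a n ≠ a' n := Function.ne_iff.mp hne
    have hn := Nat.find_spec hex
    have hmin : ∀ k < Nat.find hex, a k = a' k := fun k hk => by
      have := Nat.find_min hex hk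
      push Not at this
      exact this
    set n := Nat.find hex with hndef
    have hpre : pre a n = pre a' n := pre_congr hmin
    have heven : ∀ b, (play (comb (ruleA g b) τ) (2 * n + 2)).cur
        = piece (τ (bHist τ g (pre b n))) (b n) := by
      intro b
      have h1 : lastMove (gen (comb (ruleA g b) τ) (2 * (n + 1) + 1))
          = play (comb (ruleA g b) τ) (2 * n + 2) := by
        change lastMove (gen (comb (ruleA g b) τ) (2 * n + 2) ++ [_]) = _
        rw [lastMove_append]
        rfl
      rw [← h1, gen_ruleA, pre, bHist, lastMove_append]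
      rfl
    have hx : f a ∈ piece (τ (bHist τ g (pre a n))) (a n) := by
      rw [← heven]
      exact hf a (2 * n + 1)
    have hx' : f a ∈ piece (τ (bHist τ g (pre a n))) (a' n) := by
      rw [haa, hpre, ← heven]
      exact hf a' (2 * n + 1)
    have hleg := hplay a (2 * n + 1)
    rw [hodd] at hleg
    have hdisj := hleg.1.2
    rw [Set.disjoint_left] at hdisj
    cases h1 : a n <;> cases h2 : a' n
    · exact hn (h1.trans h2.symm)
    · rw [h1] at hx
      rw [h2] at hx'
      simp only [piece] at hx hx'
      exact hdisj hx' hx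
    · rw [h1] at hx
      rw [h2] at hx'
      simp only [piece] at hx hx'
      exact hdisj hx hx'
    · exact hn (h1.trans h2.symm)
  have hlip : lip H = g ∘ f := by
    funext a n
    exact (hbits a n).symm
  refine hg H ?_ ?_
  · rw [hlip]
    exact hginj.comp hfinj
  · rw [hlip]
    exact Set.range_comp_subset_range _ _

end Pool.Agent.H656R2.SplitGame
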